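import Pool.Agent.Q17.DC.Stm2

/-! Jobs DEC and EXC of project DC. -/

set_option autoImplicit false

open scoped BigOperators Classical
open Pool.Agent.H254R3.IN Pool.Agent.Y63.KR Pool.Agent.Q17.TC Pool.Agent.Q17.DC
open Pool.Agent.Helper884

noncomputable section

namespace Pool.Agent.Q38.DC

lemma block_char {G : Type} [Group G] {O : ValuationSubring ℂ} {b : Set (G → ℂ)}
    (hb : IsBlock O b) {ψ : G → ℂ} (hψ : ψ ∈ b) :
    b = {χ | IsIrr χ ∧ ∀ x, omega χ x - omega ψ x ∈ O.nonunits} := by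
  obtain ⟨χ₀, h0, rfl⟩ := hb
  ext χ
  constructor
  · rintro ⟨h1, h2⟩
    refine ⟨h1, fun x => ?_⟩
    have : omega χ x - omega ψ x = (omega χ x - omega χ₀ x) + -(omega ψ x - omega χ₀ x) := by ring
    rw [this]
    exact O.nonunits.add_mem (h2 x) (O.nonunits.neg_mem (hψ.2 x))
  · rintro ⟨h1, h2⟩
    refine ⟨h1, fun x => ?_⟩
    have : omega χ x - omega χ₀ x = (omega χ x - omega ψ x) + (omega ψ x - omega χ₀ x) := by ring
    rw [this]
    exact O.nonunits.add_mem (h2 x) (hψ.2 x)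

lemma block_eq {G : Type} [Group G] {O : ValuationSubring ℂ} {b b' : Set (G → ℂ)}
    (hb : IsBlock O b) (hb' : IsBlock O b') {ψ ψ' : G → ℂ} (hψ : ψ ∈ b) (hψ' : ψ' ∈ b')
    (h : ∀ x, omega ψ x - omega ψ' x ∈ O.nonunits) : b = b' := by
  rw [block_char hb' hψ']
  have hi : IsIrr ψ := by
    obtain ⟨χ₀, h0, rfl⟩ := hb
    exact hψ.1
  have h1 : ψ ∈ b' := by
    rw [block_char hb' hψ']
    exact ⟨hi, h⟩
  rw [← block_char hb' hψ', block_char hb' h1]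
  exact block_char hb hψ

lemma irr_set_finite (G : Type) [Group G] [Fintype G] : {χ : G → ℂ | IsIrr χ}.Finite :=
  (IC.Irr G).finite_toSet.subset fun _ h => mem_Irr.2 h

/-- **DEC** -/
theorem t_DEC (hT : S_TRS) : Pool.Agent.Q17.DC.S_DEC := by
  intro Γ _ _ O G X L hLX hXG hex lam Φ
  let A := {θ : L → ℂ // IsIrr θ ∧ (∀ x ∈ G, lam x - indc G L θ x ∈ O.nonunits) ∧ Φ θ}
  let I := {b : Set (X → ℂ) // IsBlock O b ∧
    ∀ ψ ∈ b, ∀ x ∈ G, lam x - indc G X ψ x ∈ O.nonunits}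
  have hA : Finite A := ((irr_set_finite L).subset fun θ h => h.1 :
    {θ : L → ℂ | IsIrr θ ∧ (∀ x ∈ G, lam x - indc G L θ x ∈ O.nonunits) ∧ Φ θ}.Finite).to_subtype
  have hI : Finite I := ((irr_set_finite X).finite_subsets.subset fun b hb ψ hψ =>
    IsBlock.irr hb.1 ψ hψ : {b : Set (X → ℂ) | IsBlock O b ∧
    ∀ ψ ∈ b, ∀ x ∈ G, lam x - indc G X ψ x ∈ O.nonunits}.Finite).to_subtype
  have hFI : Fintype I := Fintype.ofFinite I
  have htr : ∀ (θ : L → ℂ), IsIrr θ → ∀ b : Set (X → ℂ), IsBlock O b →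
      (∀ ψ ∈ b, ∀ x : X, omega ψ x - indc X L θ (x : Γ) ∈ O.nonunits) → ∀ ψ ∈ b, ∀ x : Γ,
      indc G X ψ x - indc G L θ x ∈ O.nonunits :=
    fun θ hθ b hb hbp ψ hψ x => hT Γ O G X L hXG hLX ψ (IsBlock.irr hb ψ hψ) θ hθ (hbp ψ hψ) x
  have h1 : ∀ (θ : L → ℂ), IsIrr θ → ∀ b : Set (X → ℂ), IsBlock O b →
      (∀ ψ ∈ b, ∀ x : X, omega ψ x - indc X L θ (x : Γ) ∈ O.nonunits) →
      (∀ x ∈ G, lam x - indc G L θ x ∈ O.nonunits) →
      ∀ ψ ∈ b, ∀ x ∈ G, lam x - indc G X ψ x ∈ O.nonunits := by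
    intro θ hθ b hb hbp hl ψ hψ x hx
    have : lam x - indc G X ψ x = (lam x - indc G L θ x) +
        -(indc G X ψ x - indc G L θ x) := by ring
    rw [this]
    exact O.nonunits.add_mem (hl x hx) (O.nonunits.neg_mem (htr θ hθ b hb hbp ψ hψ x))
  have h2 : ∀ (θ : L → ℂ), IsIrr θ → ∀ b : Set (X → ℂ), IsBlock O b →
      (∀ ψ ∈ b, ∀ x : X, omega ψ x - indc X L θ (x : Γ) ∈ O.nonunits) →
      (∀ ψ ∈ b, ∀ x ∈ G, lam x - indc G X ψ x ∈ O.nonunits) →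
      (∀ x ∈ G, lam x - indc G L θ x ∈ O.nonunits) := by
    intro θ hθ b hb hbp hl x hx
    obtain ⟨ψ, hψ⟩ := hb.nonempty
    have : lam x - indc G L θ x = (lam x - indc G X ψ x) +
        (indc G X ψ x - indc G L θ x) := by ring
    rw [this]
    exact O.nonunits.add_mem (hl ψ hψ x hx) (htr θ hθ b hb hbp ψ hψ x)
  have huniq : ∀ (θ : L → ℂ), ∀ b b' : Set (X → ℂ), IsBlock O b → IsBlock O b' →
      (∀ ψ ∈ b, ∀ x : X, omega ψ x - indc X L θ (x : Γ) ∈ O.nonunits) →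
      (∀ ψ ∈ b', ∀ x : X, omega ψ x - indc X L θ (x : Γ) ∈ O.nonunits) → b = b' := by
    intro θ b b' hb hb' hp hp'
    obtain ⟨ψ, hψ⟩ := hb.nonempty
    obtain ⟨ψ', hψ'⟩ := hb'.nonempty
    refine block_eq hb hb' hψ hψ' fun x => ?_
    have : omega ψ x - omega ψ' x = (omega ψ x - indc X L θ (x : Γ)) +
        -(omega ψ' x - indc X L θ (x : Γ)) := by ring
    rw [this]
    exact O.nonunits.add_mem (hp ψ hψ x) (O.nonunits.neg_mem (hp' ψ' hψ' x))
  choose! bb hbb hbp using hex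
  let f : A → I := fun a => ⟨bb a.1, hbb a.1 a.2.1,
    h1 a.1 a.2.1 _ (hbb a.1 a.2.1) (hbp a.1 a.2.1) a.2.2.1⟩
  have e1 : Nat.card A = ∑ b : I, Nat.card {a : A // f a = b} := by
    rw [← Nat.card_sigma]
    exact Nat.card_congr (Equiv.sigmaFiberEquiv f).symm
  have e2 : ∀ b : I, Nat.card {a : A // f a = b} = Nat.card {θ : L → ℂ // IsIrr θ ∧
      (∀ ψ ∈ b.1, ∀ x : X, omega ψ x - indc X L θ (x : Γ) ∈ O.nonunits) ∧ Φ θ} := by
    intro b
    refine Nat.card_congr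
      { toFun := fun a => ⟨a.1.1, a.1.2.1, ?_, a.1.2.2.2⟩
        invFun := fun θ => ⟨⟨θ.1, θ.2.1, h2 θ.1 θ.2.1 b.1 b.2.1 θ.2.2.1 b.2.2, θ.2.2.2⟩, ?_⟩
        left_inv := fun a => rfl
        right_inv := fun θ => rfl }
    · have h3 : bb a.1.1 = b.1 := congrArg Subtype.val a.2
      rw [← h3]
      exact hbp a.1.1 a.1.2.1
    · exact Subtype.ext (huniq θ.1 _ _ (hbb θ.1 θ.2.1) b.2.1 (hbp θ.1 θ.2.1) θ.2.2.1)
  change ((Nat.card A : ℕ) : ℤ) = ∑ᶠ b : I, _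
  rw [finsum_eq_sum_of_fintype, e1, Nat.cast_sum]
  exact Finset.sum_congr rfl fun b _ => congrArg _ (e2 b)

lemma indc_self {Γ : Type} [Group Γ] [Fintype Γ] (X : Subgroup Γ) {θ : X → ℂ} (hθ : IsIrr θ)
    (x : X) : indc X X θ (x : Γ) = omega θ x := by
  unfold indc omega
  have h1 : ∀ y : {y : X // ∃ g ∈ X, g * (x : Γ) * g⁻¹ = y}, θ y / θ 1 = θ x / θ 1 := by
    rintro ⟨y, g, hg, hgy⟩
    have h2 : y = (⟨g, hg⟩ : X) * x * (⟨g, hg⟩ : X)⁻¹ := Subtype.ext hgy.symm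
    change θ y / θ 1 = θ x / θ 1
    rw [h2, hθ.conj]
  rw [finsum_congr h1, finsum_eq_sum_of_fintype, Finset.sum_const, nsmul_eq_mul,
    Finset.card_univ, ← Nat.card_eq_fintype_card, mul_div_assoc]
  congr 2
  refine Nat.card_congr (Equiv.subtypeEquivRight fun y => ?_)
  rw [isConj_iff]
  constructor
  · rintro ⟨g, hg, hgy⟩
    exact ⟨⟨g, hg⟩, Subtype.ext hgy⟩
  · rintro ⟨c, hc⟩
    exact ⟨c, c.2, congrArg Subtype.val hc⟩

lemma exc_base {Γ : Type} [Group Γ] [Fintype Γ] (O : ValuationSubring ℂ) (X L : Subgroup Γ)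
    (hL : L = X) (θ : L → ℂ) (hθ : IsIrr θ) : ∃ B : Set (X → ℂ), IsBlock O B ∧
      ∀ χ ∈ B, ∀ x : X, omega χ x - indc X L θ (x : Γ) ∈ O.nonunits := by
  subst hL
  refine ⟨{χ | IsIrr χ ∧ ∀ x, omega χ x - omega θ x ∈ O.nonunits}, ⟨θ, hθ, rfl⟩, ?_⟩
  intro χ hχ x
  rw [indc_self L hθ]
  exact hχ.2 x

lemma mem_Ns {Γ : Type} [Group Γ] (X : Subgroup Γ) (σ : Set (Subgroup Γ)) (x : Γ) :
    x ∈ Ns X σ ↔ x ∈ X ∧ ∀ P ∈ σ, x ∈ Subgroup.normalizer (P : Set Γ) := by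
  unfold Ns chainStabilizer
  rw [Subgroup.mem_inf]
  simp only [Subgroup.mem_iInf]

/-- **EXC** -/
theorem t_EXC (hE : S_EXI) (hT : S_TRS) : S_EXC := by
  intro Γ _ _ p _ O hp X Z
  have key : ∀ (n : ℕ) (σ : Set (Subgroup Γ)), σ.ncard = n → Ch p X Z σ → ∀ θ : Ns X σ → ℂ,
      IsIrr θ → ∃ B : Set (X → ℂ), IsBlock O B ∧
      ∀ χ ∈ B, ∀ x : X, omega χ x - indc X (Ns X σ) θ (x : Γ) ∈ O.nonunits := by
    intro n
    induction n with
    | zero =>
      intro σ hσ _ θ hθ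
      have h1 : σ = ∅ := (Set.ncard_eq_zero (Set.toFinite σ)).1 hσ
      refine exc_base O X (Ns X σ) ?_ θ hθ
      ext x
      rw [mem_Ns, h1]
      simp
    | succ n ih =>
      intro σ hσ hch θ hθ
      have hne : σ.Nonempty := by
        rw [← Set.ncard_pos (Set.toFinite σ)]
        omega
      obtain ⟨D, hD⟩ := (Set.toFinite σ).exists_minimal hne
      have hDσ : D ∈ σ := hD.prop
      have hle : ∀ P ∈ σ, D ≤ P := by
        intro P hP
        by_cases hPD : D = P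
        · exact hPD.le
        · rcases hch.chain hDσ hP hPD with h | h
          · exact h
          · exact hD.le_of_le hP h
      have hτ : Ch p X Z (σ \ {D}) :=
        { chain := hch.chain.mono Set.sdiff_subset
          isp := fun P hP => hch.isp P hP.1
          le := fun P hP => hch.le P hP.1
          lt := fun P hP => hch.lt P hP.1 }
      have hcard : (σ \ {D}).ncard = n := by
        rw [Set.ncard_sdiff_singleton_of_mem hDσ, hσ, Nat.add_sub_cancel]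
      have hDN : D ≤ Ns X (σ \ {D}) := by
        intro d hd
        rw [mem_Ns]
        exact ⟨hch.le D hDσ hd, fun P hP => Subgroup.le_normalizer (hle P hP.1 hd)⟩
      have hmem : ∀ x, x ∈ Ns X σ ↔ x ∈ Ns X (σ \ {D}) ∧
          x ∈ Subgroup.normalizer (D : Set Γ) := by
        intro x
        rw [mem_Ns, mem_Ns]
        constructor
        · rintro ⟨h1, h2⟩
          exact ⟨⟨h1, fun P hP => h2 P hP.1⟩, h2 D hDσ⟩
        · rintro ⟨⟨h1, h2⟩, h3⟩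
          refine ⟨h1, fun P hP => ?_⟩
          by_cases hPD : P = D
          · rw [hPD]
            exact h3
          · exact h2 P ⟨hP, hPD⟩
      obtain ⟨B', hB', hB'c⟩ := hE Γ p O hp (Ns X (σ \ {D})) (Ns X σ) D hDN (hch.isp D hDσ)
        hmem θ hθ
      obtain ⟨χ', hχ'⟩ := hB'.nonempty
      have hχi := IsBlock.irr hB' χ' hχ'
      obtain ⟨B, hB, hBc⟩ := ih (σ \ {D}) hcard hτ χ' hχi
      refine ⟨B, hB, fun χ hχ x => ?_⟩
      have h1 := hT Γ O X (Ns X (σ \ {D})) (Ns X σ) inf_le_left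
        (fun y hy => ((hmem y).1 hy).1) χ' hχi θ hθ (hB'c χ' hχ') (x : Γ)
      have h2 : omega χ x - indc X (Ns X σ) θ (x : Γ) =
          (omega χ x - indc X (Ns X (σ \ {D})) χ' (x : Γ)) +
          (indc X (Ns X (σ \ {D})) χ' (x : Γ) - indc X (Ns X σ) θ (x : Γ)) := by ring
      rw [h2]
      exact O.nonunits.add_mem (hBc χ hχ x) h1
  intro σ hσ θ hθ
  exact key _ σ rfl hσ θ hθ

end Pool.Agent.Q38.DC
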