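import Pool.Agent.Q17.DC.Stm2
import Pool.Agent.Q176.DC.BRD
import Pool.Agent.Q111.DC.PRT

/-! Job EXI of project DC: characters of the normaliser of a `p`-subgroup lie in blocks which induce
blocks. -/

set_option autoImplicit false
set_option linter.unusedSectionVars false

open scoped BigOperators Classical
open Pool.Agent.H254R3.IN Pool.Agent.Y63.KR Pool.Agent.Q17.TC Pool.Agent.Q17.DC
open Pool.Agent.Q176.DC Pool.Agent.Helper884

noncomputable section

namespace Pool.Agent.Q38.DC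

/-- residues on the centraliser determine the residue of `Om` -/
lemma red_Om_cent {O : ValuationSubring ℂ} {p : ℕ} [Fact p.Prime] (hp : (p : ℂ) ∈ O.nonunits)
    {N : Type} [Group N] [Fintype N] {D : Subgroup N} [D.Normal] (hD : IsPGroup p D)
    {χ f h : N → ℂ} (hχ : IsIrr χ) (hf : IsCl f) (hh : IsCl h) (hfO : ∀ a, f a ∈ O)
    (hhO : ∀ a, h a ∈ O)
    (e : ∀ a ∈ Subgroup.centralizer (D : Set N), red O (f a) = red O (h a)) :
    red O (Om f χ) = red O (Om h χ) := by
  rw [(red_Om hχ hf hfO).2, (red_Om hχ hh hhO).2]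
  refine Finset.sum_congr rfl fun K _ => ?_
  by_cases hK : rep K ∈ Subgroup.centralizer (D : Set N)
  · rw [e _ hK]
  · rw [lam_zero hp hD hχ hK, mul_zero, mul_zero]

section main

variable {G : Type} [Group G] [Fintype G]

lemma red_conv_sum {p : ℕ} [Fact p.Prime] {O : ValuationSubring ℂ} (hp : (p : ℂ) ∈ O.nonunits)
    (D : Subgroup G) (hD : IsPGroup p D) {u v : G → ℂ} (hu : IsCl u) (hv : IsCl v)
    (hu' : ∀ g, u g ∈ O) (hv' : ∀ g, v g ∈ O) (c : G)
    (hc : c ∈ Subgroup.centralizer (D : Set G)) :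
    red O (conv u v c) =
      ∑ x : Subgroup.centralizer (D : Set G), red O (u x * v ((x : G)⁻¹ * c)) := by
  have h1 := rs_conv hp D hD hu hv hu' hv' ⟨c, hc⟩
  refine h1.trans ?_
  unfold conv
  rw [red_sum _ _ fun x _ => O.mul_mem _ _ (rs_mem _ hu' x) (rs_mem _ hv' _)]
  rfl

lemma mem_cent_iff {D N : Subgroup G} (hDN : D ≤ N) (c : N) :
    c ∈ Subgroup.centralizer ((D.subgroupOf N : Subgroup N) : Set N) ↔
    (c : G) ∈ Subgroup.centralizer (D : Set G) := by
  rw [Subgroup.mem_centralizer_iff, Subgroup.mem_centralizer_iff]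
  constructor
  · intro h d hd
    exact congrArg Subtype.val (h ⟨d, hDN hd⟩ (Subgroup.mem_subgroupOf.2 hd))
  · intro h d hd
    exact Subtype.ext (h d (Subgroup.mem_subgroupOf.1 hd))

lemma cent_le_norm (D : Subgroup G) {c : G} (hc : c ∈ Subgroup.centralizer (D : Set G)) :
    c ∈ Subgroup.normalizer (D : Set G) := by
  rw [← conjSub_eq_iff]
  ext x
  rw [mem_conjSub]
  have h1 := Subgroup.mem_centralizer_iff.1 hc
  constructor
  · intro h
    have h2 := h1 _ h
    have h3 : c⁻¹ * x * c = x := by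
      have h4 : x * c = c * (c⁻¹ * x * c) := by group
      rw [← h2] at h4
      exact (mul_right_cancel h4).symm
    rwa [h3] at h
  · intro h
    have h2 := h1 x h
    have h3 : c⁻¹ * x * c = x := by
      rw [mul_assoc, h2, inv_mul_cancel_left]
    rwa [h3]

lemma mul_res {p : ℕ} [Fact p.Prime] {O : ValuationSubring ℂ} (hp : (p : ℂ) ∈ O.nonunits)
    (D : Subgroup G) (hD : IsPGroup p D) (N : Subgroup G)
    (hN : N = Subgroup.normalizer (D : Set G)) {θ : N → ℂ}
    (hθ : IsIrr θ) {u v : G → ℂ} (hu : IsCl u) (hv : IsCl v)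
    (hu' : ∀ g, u g ∈ O) (hv' : ∀ g, v g ∈ O) :
    red O (Om (rs N (conv u v)) θ) = red O (Om (rs N u) θ) * red O (Om (rs N v) θ) := by
  have hle : D ≤ N := by rw [hN]; exact Subgroup.le_normalizer
  have hnorm : (D.subgroupOf N).Normal := by
    subst hN
    exact Subgroup.normal_in_normalizer
  have hDN : IsPGroup p (D.subgroupOf N) := hD.comap_subtype
  have h1 : red O (Om (rs N (conv u v)) θ) = red O (Om (conv (rs N u) (rs N v)) θ) := by
    refine red_Om_cent hp hDN hθ (rs_cl N (hu.conv hv)) ((rs_cl N hu).conv (rs_cl N hv))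
      (rs_mem N (conv_mem hu' hv')) (conv_mem (rs_mem N hu') (rs_mem N hv')) fun c hc => ?_
    have hc' : (c : G) ∈ Subgroup.centralizer (D : Set G) := (mem_cent_iff hle c).1 hc
    rw [red_conv_sum hp (D.subgroupOf N) hDN (rs_cl N hu) (rs_cl N hv) (rs_mem N hu')
      (rs_mem N hv') c hc]
    change red O (conv u v (c : G)) = _
    rw [red_conv_sum hp D hD hu hv hu' hv' (c : G) hc']
    symm
    refine Fintype.sum_bijective
      (fun x : Subgroup.centralizer ((D.subgroupOf N : Subgroup N) : Set N) =>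
        (⟨((x : N) : G), (mem_cent_iff hle x.1).1 x.2⟩ : Subgroup.centralizer (D : Set G)))
      ⟨?_, ?_⟩ _ _ fun x => ?_
    · intro x y hxy
      have h2 : ((x : N) : G) = ((y : N) : G) :=
        congrArg (fun z : Subgroup.centralizer (D : Set G) => (z : G)) hxy
      exact Subtype.ext (Subtype.ext h2)
    · rintro ⟨x, hx⟩
      exact ⟨⟨⟨x, by rw [hN]; exact cent_le_norm D hx⟩, (mem_cent_iff hle _).2 hx⟩, rfl⟩
    · rfl
  rw [h1, Om_conv hθ (rs_cl N hu) (rs_cl N hv),
    red_mul (red_Om hθ (rs_cl N hu) (rs_mem N hu')).1 (red_Om hθ (rs_cl N hv) (rs_mem N hv')).1]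

/-- Brauer: the block of a character of the normaliser of a `p`-subgroup induces a block -/
theorem exi_main {p : ℕ} [Fact p.Prime] {O : ValuationSubring ℂ} (hp : (p : ℂ) ∈ O.nonunits)
    (D : Subgroup G) (hD : IsPGroup p D) (C : Subgroup G)
    (hC : C = Subgroup.normalizer (D : Set G)) {θ : C → ℂ}
    (hθ : IsIrr θ) : ∃ B : Set (G → ℂ), IsBlock O B ∧ ∀ χ ∈ B, ∀ w : G, omega χ w -
      ∑ᶠ y : {y : C // IsConj w (y : G)}, θ y / θ 1 ∈ O.nonunits := by
  have hmul : ∀ {u v : G → ℂ}, IsCl u → IsCl v → (∀ g, u g ∈ O) → (∀ g, v g ∈ O) →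
      red O (Om (rs C (conv u v)) θ) = red O (Om (rs C u) θ) * red O (Om (rs C v) θ) :=
    fun hu hv hu' hv' => mul_res hp D hD C hC hθ hu hv hu' hv'
  have hdl : rs C dl = dl := by
    funext c
    exact dl_coe C c
  obtain ⟨B, hB, hBne⟩ : ∃ B : Set (G → ℂ), IsBlock O B ∧
      red O (Om (rs C (blockCoeff B)) θ) ≠ 0 := by
    by_contra hcon
    push Not at hcon
    have h1 : Om (rs C dl) θ = ∑ β ∈ Pool.Agent.Q111.DC.Bls (A := G) O,
        Om (rs C (blockCoeff β)) θ := by
      rw [← Pool.Agent.Q111.DC.sum_blocks (A := G) O]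
      exact Pool.Agent.Q111.DC.Om_sum _ (fun β => rs C (blockCoeff β)) θ
    rw [hdl, Om_dl hθ] at h1
    have h2 : red O 1 = 0 := by
      rw [h1, red_sum _ _ fun β hβ => ?_]
      · refine Finset.sum_eq_zero fun β hβ => ?_
        obtain ⟨χ, hχ, rfl⟩ := Finset.mem_image.mp hβ
        exact hcon _ (Pool.Agent.Q111.DC.Bl_block (mem_Irr.mp hχ))
      · obtain ⟨χ, hχ, rfl⟩ := Finset.mem_image.mp hβ
        have hb := Pool.Agent.Q111.DC.Bl_block (O := O) (mem_Irr.mp hχ)
        exact (red_Om hθ (rs_cl C (blockCoeff_cl hb.irr)) (rs_mem C (blockCoeff_mem hb))).1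
    rw [red_one] at h2
    exact one_ne_zero h2
  have hcl := blockCoeff_cl hB.irr
  have hbO := blockCoeff_mem hB
  refine ⟨B, hB, fun χ hχ w => ?_⟩
  have hsum : ∑ᶠ y : {y : C // IsConj w (y : G)}, θ y / θ 1 = Om (rs C (ind w)) θ := by
    rw [finsum_eq_sum_of_fintype]
    unfold Om rs ind
    simp only [ite_mul, one_mul, zero_mul]
    rw [← Finset.sum_filter, Finset.sum_div]
    rw [Finset.sum_subtype (Finset.univ.filter (fun y : C => IsConj w (y : G)))
      (p := fun y : C => IsConj w (y : G)) (by intro y; simp)]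
  rw [hsum]
  have hk := ind_cl w
  have hkO := ind_mem O w
  obtain ⟨K, hK⟩ : ∃ K, K = Om (rs C (ind w)) θ := ⟨_, rfl⟩
  have hKO : K ∈ O := by rw [hK]; exact (red_Om hθ (rs_cl C hk) (rs_mem C hkO)).1
  have key : ∀ T : Finset (G → ℂ), (∀ ψ ∈ T, ψ ∈ B) → ∃ P : G → ℂ, IsCl P ∧ (∀ g, P g ∈ O) ∧
      (∀ χ', IsIrr χ' → Om P χ' = ∏ ψ ∈ T, (omega χ' w - omega ψ w)) ∧
      red O (Om (rs C P) θ) = ∏ ψ ∈ T, (red O K - red O (omega ψ w)) := by
    intro T
    induction T using Finset.induction_on with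
    | empty =>
      refine fun _ => ⟨dl, dl_cl, dl_mem O, fun χ' hχ' => by rw [Om_dl hχ', Finset.prod_empty], ?_⟩
      rw [hdl, Om_dl hθ, red_one, Finset.prod_empty]
    | insert f s hf ih =>
      intro hT
      obtain ⟨P, h1, h2, h3, h4⟩ := ih fun φ hφ => hT φ (Finset.mem_insert_of_mem hφ)
      have hfi := hB.irr f (hT f (Finset.mem_insert_self f s))
      have hfO := hfi.omega_mem O w
      have hQO : ∀ g, ind w g - omega f w * dl g ∈ O := fun g =>
        sub_mem' (hkO g) (O.mul_mem _ _ hfO (dl_mem O g))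
      have hQ := cl_shift hk (omega f w)
      refine ⟨conv P (fun g => ind w g - omega f w * dl g), h1.conv hQ, conv_mem h2 hQO, ?_, ?_⟩
      · intro χ' hχ'
        rw [Om_conv hχ' h1 hQ, h3 χ' hχ', Om_shift hχ', Om_ind hχ', Finset.prod_insert hf]
        ring
      · rw [hmul h1 hQ h2 hQO]
        have h5 : Om (rs C (fun g => ind w g - omega f w * dl g)) θ = K - omega f w := by
          have h6 : rs C (fun g => ind w g - omega f w * dl g) =
              fun c => rs C (ind w) c - omega f w * dl c := by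
            funext c
            show ind w (c : G) - omega f w * dl (c : G) = ind w (c : G) - omega f w * dl c
            rw [dl_coe]
          rw [h6, Om_shift hθ, hK]
        rw [h5, h4, red_sub hKO hfO, Finset.prod_insert hf]
        ring
  obtain ⟨P, h1, h2, h3, h4⟩ := key ((IC.Irr G).filter (· ∈ B)) fun ψ hψ =>
    (Finset.mem_filter.1 hψ).2
  have h5 : conv P (blockCoeff B) = fun _ => 0 := by
    refine eq_of_Om (h1.conv hcl) (fun _ _ => rfl) fun χ' hχ' => ?_
    rw [Om_conv hχ' h1 hcl, h3 χ' hχ', Om_blockCoeff hB.irr hχ']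
    have h6 : Om (fun _ : G => (0 : ℂ)) χ' = 0 := by unfold Om; simp
    rw [h6]
    by_cases hB' : χ' ∈ B
    · have hz : ∏ ψ ∈ (IC.Irr G).filter (· ∈ B), (omega χ' w - omega ψ w) = 0 :=
        Finset.prod_eq_zero (Finset.mem_filter.2 ⟨mem_Irr.2 hχ', hB'⟩) (sub_self _)
      rw [hz, zero_mul]
    · rw [if_neg hB', mul_zero]
  have h6 : red O (Om (rs C P) θ) * red O (Om (rs C (blockCoeff B)) θ) = 0 := by
    rw [← hmul h1 hcl h2 hbO, h5]
    have h7 : Om (rs C (fun _ : G => (0 : ℂ))) θ = 0 := by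
      unfold Om rs
      simp
    rw [h7, red_zero]
  rcases mul_eq_zero.1 h6 with h7 | h7
  · rw [h4, Finset.prod_eq_zero_iff] at h7
    obtain ⟨ψ, hψ, h8⟩ := h7
    have hψB := (Finset.mem_filter.1 hψ).2
    rw [← hK]
    have hχO := (hB.irr χ hχ).omega_mem O w
    rw [← red_eq_iff hχO hKO, hB.red_eq hχ hψB, (sub_eq_zero.1 h8)]
  · exact absurd h7 hBne

end main

/-- **EXI** -/
theorem t_EXI : S_EXI := by
  intro Γ _ _ p _ O hp L L' D hDL hD hL' θ hθ
  set D₀ := D.subgroupOf L with hD₀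
  have hmap : D₀.map L.subtype = D := Subgroup.map_subgroupOf_eq_of_le hDL
  have hmem : ∀ x : L, x ∈ Subgroup.normalizer (D₀ : Set L) ↔ (x : Γ) ∈ L' := by
    intro x
    rw [hL', ← conjSub_eq_iff, ← conjSub_eq_iff]
    constructor
    · intro h
      refine ⟨x.2, ?_⟩
      have h1 := congrArg (Subgroup.map L.subtype) h
      rwa [show (conjSub x D₀).map L.subtype = conjSub (x : Γ) (D₀.map L.subtype) by
        unfold conjSub; rw [Subgroup.map_map, Subgroup.map_map]; congr 1, hmap] at h1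
    · rintro ⟨-, h⟩
      apply Subgroup.map_injective L.subtype_injective
      rw [show (conjSub x D₀).map L.subtype = conjSub (x : Γ) (D₀.map L.subtype) by
        unfold conjSub; rw [Subgroup.map_map, Subgroup.map_map]; congr 1, hmap, h]
  have hle : ∀ y : L', (y : Γ) ∈ L := fun y => ((hL' y).1 y.2).1
  let j : Subgroup.normalizer (D₀ : Set L) ≃* L' :=
    { toFun := fun x => ⟨((x : L) : Γ), (hmem x.1).1 x.2⟩
      invFun := fun y => ⟨⟨y, hle y⟩, (hmem _).2 y.2⟩
      left_inv := fun x => rfl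
      right_inv := fun y => rfl
      map_mul' := fun x y => rfl }
  have hφ : IsIrr (fun n => θ (j n)) := Pool.Agent.Y62.irr_comp hθ j
  obtain ⟨B, hB, hBw⟩ := exi_main (O := O) hp D₀ hD.comap_subtype _ rfl hφ
  refine ⟨B, hB, fun χ hχ x => ?_⟩
  have h1 := hBw χ hχ x
  have h2 : ∑ᶠ y : {y : Subgroup.normalizer (D₀ : Set L) // IsConj x (y : L)},
      θ (j y) / θ (j 1) = indc L L' θ (x : Γ) := by
    unfold indc
    rw [map_one]
    refine finsum_eq_of_bijective
      (fun y : {y : Subgroup.normalizer (D₀ : Set L) // IsConj x (y : L)} =>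
        (⟨j y.1, by
          obtain ⟨c, hc⟩ := isConj_iff.1 y.2
          exact ⟨c, c.2, congrArg Subtype.val hc⟩⟩ :
          {y : L' // ∃ g ∈ L, g * (x : Γ) * g⁻¹ = y})) ⟨?_, ?_⟩ fun y => ?_
    · intro a b hab
      exact Subtype.ext (j.injective (congrArg Subtype.val hab))
    · rintro ⟨y, g, hg, hgy⟩
      refine ⟨⟨j.symm y, ?_⟩, Subtype.ext (j.apply_symm_apply y)⟩
      rw [isConj_iff]
      exact ⟨⟨g, hg⟩, Subtype.ext hgy⟩
    · rfl
  rwa [h2] at h1

end Pool.Agent.Q38.DC
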