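import Pool.Agent.Q17.DC.Stm2

/-! Job TRP of project DC: chains of `p`-subgroups of a subgroup. -/

set_option autoImplicit false

open scoped BigOperators Classical
open Pool.Agent.H254R3.IN Pool.Agent.Y63.KR Pool.Agent.Q17.TC Pool.Agent.Q17.DC

noncomputable section

namespace Pool.Agent.Q38.DC

variable {Γ : Type} [Group Γ]

theorem map_inj (X : Subgroup Γ) : Function.Injective (Subgroup.map X.subtype) :=
  Subgroup.map_injective X.subtype_injective

theorem map_conjSub (X : Subgroup Γ) (g : X) (P : Subgroup X) :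
    (conjSub g P).map X.subtype = conjSub (g : Γ) (P.map X.subtype) := by
  unfold conjSub
  rw [Subgroup.map_map, Subgroup.map_map]
  congr 1

theorem map_conjSub_image (X : Subgroup Γ) (g : X) (σ : Set (Subgroup X)) :
    Subgroup.map X.subtype '' (conjSub g '' σ) =
      conjSub (g : Γ) '' (Subgroup.map X.subtype '' σ) := by
  rw [← Set.image_comp, ← Set.image_comp]
  congr 1
  exact funext fun P => map_conjSub X g P

theorem ch_map {p : ℕ} {X Z : Subgroup Γ} (hZ : Z ≤ X) {σ : Set (Subgroup X)}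
    (h : Ch p (⊤ : Subgroup X) (Z.subgroupOf X) σ) : Ch p X Z (Subgroup.map X.subtype '' σ) where
  chain := by
    rintro _ ⟨P, hP, rfl⟩ _ ⟨Q, hQ, rfl⟩ hne
    have hPQ : P ≠ Q := fun h => hne (by rw [h])
    rcases h.chain hP hQ hPQ with h1 | h1
    · exact Or.inl (Subgroup.map_mono h1)
    · exact Or.inr (Subgroup.map_mono h1)
  isp := by
    rintro _ ⟨P, hP, rfl⟩
    exact (h.isp P hP).map _
  le := by
    rintro _ ⟨P, hP, rfl⟩
    exact Subgroup.map_subtype_le P
  lt := by
    rintro _ ⟨P, hP, rfl⟩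
    have h1 := h.lt P hP
    have h2 : (Z.subgroupOf X).map X.subtype = Z := Subgroup.map_subgroupOf_eq_of_le hZ
    have h3 : (Z.subgroupOf X).map X.subtype ≤ P.map X.subtype := Subgroup.map_mono h1.le
    rw [h2] at h3
    refine lt_of_le_of_ne h3 fun h4 => h1.ne ?_
    apply map_inj X
    rw [h2, h4]

theorem ch_comap {p : ℕ} {X Z : Subgroup Γ} (hZ : Z ≤ X) {σ : Set (Subgroup Γ)}
    (h : Ch p X Z σ) : Ch p (⊤ : Subgroup X) (Z.subgroupOf X)
      ((fun P => P.subgroupOf X) '' σ) where
  chain := by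
    rintro _ ⟨P, hP, rfl⟩ _ ⟨Q, hQ, rfl⟩ hne
    have hPQ : P ≠ Q := fun h => hne (by rw [h])
    rcases h.chain hP hQ hPQ with h1 | h1
    · exact Or.inl (Subgroup.comap_mono h1)
    · exact Or.inr (Subgroup.comap_mono h1)
  isp := by
    rintro _ ⟨P, hP, rfl⟩
    exact (h.isp P hP).comap_subtype
  le := fun _ _ => le_top
  lt := by
    rintro _ ⟨P, hP, rfl⟩
    have h1 := h.lt P hP
    refine lt_of_le_of_ne (Subgroup.comap_mono h1.le) fun h4 => h1.ne ?_
    have h5 := congrArg (Subgroup.map X.subtype) h4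
    rwa [Subgroup.map_subgroupOf_eq_of_le hZ, Subgroup.map_subgroupOf_eq_of_le (h.le P hP)] at h5

theorem map_comap_image {p : ℕ} {X Z : Subgroup Γ} {σ : Set (Subgroup Γ)} (h : Ch p X Z σ) :
    Subgroup.map X.subtype '' ((fun P => P.subgroupOf X) '' σ) = σ := by
  rw [← Set.image_comp]
  ext Q
  constructor
  · rintro ⟨P, hP, rfl⟩
    rw [Function.comp_apply, Subgroup.map_subgroupOf_eq_of_le (h.le P hP)]
    exact hP
  · intro hQ
    exact ⟨Q, hQ, by rw [Function.comp_apply, Subgroup.map_subgroupOf_eq_of_le (h.le Q hQ)]⟩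

/-- **TRP** -/
theorem t_TRP : Pool.Agent.Q17.DC.S_TRP := by
  intro Γ _ _ p X Z hZ w hw
  let e : {σ : Set (Subgroup X) // Ch p (⊤ : Subgroup X) (Z.subgroupOf X) σ} →
      {σ : Set (Subgroup Γ) // Ch p X Z σ} :=
    fun σ => ⟨Subgroup.map X.subtype '' σ.1, ch_map hZ σ.2⟩
  have he : ∀ σ τ, (chX p (⊤ : Subgroup X) (Z.subgroupOf X)).r σ τ ↔
      (chX p X Z).r (e σ) (e τ) := by
    intro σ τ
    constructor
    · rintro ⟨g, -, hg⟩
      refine ⟨g, g.2, ?_⟩
      change Subgroup.map X.subtype '' τ.1 = conjSub (g : Γ) '' (Subgroup.map X.subtype '' σ.1)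
      rw [hg, map_conjSub_image]
    · rintro ⟨g, hgX, hg⟩
      refine ⟨⟨g, hgX⟩, Subgroup.mem_top _, ?_⟩
      apply (map_inj X).image_injective
      rw [map_conjSub_image]
      exact hg
  let E : Quotient (chX p (⊤ : Subgroup X) (Z.subgroupOf X)) → Quotient (chX p X Z) :=
    Quotient.map e fun σ τ h => (he σ τ).1 h
  have hE : Function.Bijective E := by
    constructor
    · intro a b
      induction a using Quotient.inductionOn with | _ σ => ?_
      induction b using Quotient.inductionOn with | _ τ => ?_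
      intro hab
      have h1 : (chX p X Z).r (e σ) (e τ) := Quotient.exact hab
      exact Quotient.sound ((he σ τ).2 h1)
    · intro b
      induction b using Quotient.inductionOn with | _ τ => ?_
      refine ⟨Quotient.mk _ ⟨_, ch_comap hZ τ.2⟩, ?_⟩
      change Quotient.mk _ (e _) = _
      congr 1
      exact Subtype.ext (map_comap_image τ.2)
  unfold altX
  symm
  refine finsum_eq_of_bijective E hE fun c => ?_
  have h1 : Quotient.mk (chX p X Z) (e (Quotient.out c)) = E c := by
    conv_rhs => rw [← Quotient.out_eq c]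
    rfl
  have h2 : (chX p X Z).r (e (Quotient.out c)) (Quotient.out (E c)) := by
    apply Quotient.exact
    rw [Quotient.out_eq, h1]
  obtain ⟨g, hg, hgE⟩ := h2
  rw [hgE, ncard_conj, hw _ (e (Quotient.out c)).2 g hg]
  have h3 : (e (Quotient.out c)).1.ncard = (Quotient.out c).1.ncard :=
    Set.ncard_image_of_injective _ (map_inj X)
  rw [h3]

end Pool.Agent.Q38.DC
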